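import Pool.Agent.Helper57.SS.Goals

/-!
# Project SS (MP_9a4587_an), packet SS-LHA: assembly of the measure lemma
-/

set_option autoImplicit false

namespace Pool.Agent.Helper55.SS

open MeasureTheory ProbabilityTheory Filter Topology
open Pool.Agent.Helper57.SS

theorem dn_rnDeriv (τ Θ : Measure (Ci × Ci)) [IsFiniteMeasure τ] : Dn Θ (fun z => (τ.rnDeriv Θ z).toReal) :=
  ⟨(Measure.measurable_rnDeriv τ Θ).ennreal_toReal, fun _ => ENNReal.toReal_nonneg, Measure.integrable_toReal_rnDeriv⟩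

theorem real_pos_of_ne_zero {τ : Measure (Ci × Ci)} [IsFiniteMeasure τ] (h : τ ≠ 0) : 0 < τ.real Set.univ := by
  rw [Measure.real, ENNReal.toReal_pos_iff]
  refine ⟨?_, measure_lt_top τ _⟩
  rw [pos_iff_ne_zero]
  intro h0
  exact h (Measure.measure_univ_eq_zero.1 h0)

theorem gLHA : G_LHA := by
  intro hSHB hSML hCOV hGAP hLOC hSNG hDIS hPICK hFIN σ1 σ2 σ3 _ _ _ τ _ hac1 hac2 hac3 hna hsing
  by_contra hτ
  have mA1 : Measurable (fun z : Ci × Ci => (z.1, z.1 + z.2)) :=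
    measurable_fst.prodMk (measurable_fst.add measurable_snd)
  have mA2 : Measurable (fun z : Ci × Ci => (z.2, z.1 + z.2)) :=
    measurable_snd.prodMk (measurable_fst.add measurable_snd)
  have hF : Dn (σ1.prod σ2) (fun z => (τ.rnDeriv (σ1.prod σ2) z).toReal) := dn_rnDeriv τ _
  have hG : Dn (σ1.prod σ3) (fun z => ((τ.map (fun z : Ci × Ci => (z.1, z.1 + z.2))).rnDeriv (σ1.prod σ3) z).toReal) :=
    dn_rnDeriv _ _
  set F : Ci × Ci → ℝ := fun z => (τ.rnDeriv (σ1.prod σ2) z).toReal with hFdef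
  set G : Ci × Ci → ℝ := fun z => ((τ.map (fun z : Ci × Ci => (z.1, z.1 + z.2))).rnDeriv (σ1.prod σ3) z).toReal with hGdef
  have hFi : ∀ A : Set (Ci × Ci), ∫ z in A, F z ∂(σ1.prod σ2) = τ.real A := fun A =>
    Measure.setIntegral_toReal_rnDeriv hac1 A
  have hGi : ∀ A : Set (Ci × Ci), ∫ z in A, G z ∂(σ1.prod σ3) =
      (τ.map (fun z : Ci × Ci => (z.1, z.1 + z.2))).real A := fun A =>
    Measure.setIntegral_toReal_rnDeriv hac2 A
  have h1 : ∀ A : Set (Ci × Ci), MeasurableSet A →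
      ∫ z in {z : Ci × Ci | (z.1, z.1 + z.2) ∈ A}, F z ∂(σ1.prod σ2) = ∫ z in A, G z ∂(σ1.prod σ3) := by
    intro A hA
    rw [hFi, hGi, map_measureReal_apply mA1 hA]
    rfl
  have h2 : ∀ A : Set (Ci × Ci), MeasurableSet A → (σ2.prod σ3) A = 0 →
      ∫ z in {z : Ci × Ci | (z.2, z.1 + z.2) ∈ A}, F z ∂(σ1.prod σ2) = 0 := by
    intro A hA h0
    have h3 : (τ.map (fun z : Ci × Ci => (z.2, z.1 + z.2))) A = 0 := hac3 h0
    rw [Measure.map_apply mA2 hA] at h3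
    rw [hFi, Measure.real]
    have h4 : τ {z : Ci × Ci | (z.2, z.1 + z.2) ∈ A} = 0 := h3
    rw [h4]
    rfl
  have hpos : 0 < ∫ z, F z ∂(σ1.prod σ2) := by
    rw [← setIntegral_univ, hFi]
    exact real_pos_of_ne_zero hτ
  obtain ⟨s0, E, hs0, hE, hEg, hE0, hc, hEs⟩ := hPICK σ1 σ2 σ3 F G (1 / 128) {s | Fib σ2 σ3 F G s} hF hG (by norm_num)
    (hDIS σ1 σ2 σ3 F G hF hG h1) hpos
  obtain ⟨ν, hν, hνac, hνe⟩ := hFIN hSHB σ1 σ2 σ3 F G (1 / 128) s0 E hF hG (by norm_num) h2 hs0 hE (fun s hs => hEg hs)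
    hE0 hc hEs
  have e64 : (2 : ℝ) * (1 / 128) = 1 / 64 := by norm_num
  rw [e64] at hνe
  have hνna : ∀ z, ν {z} = 0 := fun z => hνac (hna z)
  have hex : ∃ t : Ci, ν {x | x - t ∈ Sh ν (1 / 64)} ≠ 0 := by
    by_contra hcon
    push Not at hcon
    have h5 : {t : Ci | ν {x | x - t ∈ Sh ν (1 / 64)} = 0} = Set.univ := Set.eq_univ_of_forall hcon
    rw [h5, probReal_univ] at hνe
    norm_num at hνe
  obtain ⟨t, ht⟩ := hex
  obtain ⟨D, hD⟩ := hCOV hSHB ν (1 / 64) (by norm_num) (by norm_num) hνe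
  obtain ⟨η, hη, hη2⟩ := hGAP hSHB ν (1 / 64) D hD
  have h6 := hLOC hSHB ν (1 / 64) η (by norm_num) (by norm_num) hη hη2
    (hSML hSHB ν (1 / 64) t hνna ht)
  exact hSNG hSHB ν η hη h6 (hsing.mono_ac hνac Measure.AbsolutelyContinuous.rfl)

end Pool.Agent.Helper55.SS
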